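import Pool.Agent.H22.VB4

namespace Pool.Agent.Results.MP_8c536d_lc.NoScheme

open Pool.Agent.H36.Par Pool.Agent.H22.VB

/-- An FPT approximation algorithm for Vertex Bisection with a fixed ratio below `3 / 2` would
make Clique fixed-parameter tractable. -/
theorem result (p q : ℕ) (h : 2 * p < 3 * q) :
    FPTApprox p q → FPTOn (fun _ => True) Clique kOf := approx_hard h

end Pool.Agent.Results.MP_8c536d_lc.NoScheme
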